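import Pool.Agent.KS6_54.SQ.Seq
import Pool.Agent.KS6_54.SQ.Tower

set_option autoImplicit false

/-!
# One sequence which beats `(log N)^d / N` in all dimensions at once
-/

namespace Pool.Agent.Results.MP_f4022e_nt.SimultaneousAllDim

open MeasureTheory Filter

/-- `B` is an axis-parallel box contained in `[0,1)^d`: a product of subintervals of `[0,1)` of any
kind (open, closed, half-open; `Set.OrdConnected` subsets of `ℝ` are exactly the intervals). -/
def IsBox {d : ℕ} (B : Set (Fin d → ℝ)) : Prop :=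
  ∃ I : Fin d → Set ℝ, (∀ i, (I i).OrdConnected ∧ I i ⊆ Set.Ico 0 1) ∧ B = Set.univ.pi I

open Classical in
/-- `A_N(B)`: the number of indices `0 ≤ n < N` with `z_n ∈ B`. -/
noncomputable def countIn {d : ℕ} (z : ℕ → Fin d → ℝ) (N : ℕ) (B : Set (Fin d → ℝ)) : ℕ :=
  ((Finset.range N).filter (fun n => z n ∈ B)).card

/-- `D_N`: the (extreme) discrepancy of the first `N` points of the sequence `z`, the supremum of
`|A_N(B) / N - λ(B)|` over all axis-parallel boxes `B` contained in `[0,1)^d`. -/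
noncomputable def discrepancy {d : ℕ} (z : ℕ → Fin d → ℝ) (N : ℕ) : ENNReal :=
  ⨆ (B : Set (Fin d → ℝ)) (_ : IsBox B),
    ENNReal.ofReal |(countIn z N B : ℝ) / N - (volume B).toReal|

/-- The projection of a sequence in `[0,1)^ℕ` to the first `d` coordinates. -/
def proj (z : ℕ → ℕ → ℝ) (d : ℕ) : ℕ → Fin d → ℝ := fun n i => z n i

lemma disc_le {d : ℕ} {z : ℕ → Fin d → ℝ} {N : ℕ} {E : ℝ} (hN : 0 < N)
    (hz : ∀ n j, 0 ≤ z n j ∧ z n j < 1) (h : H739SQ.SB z N E) :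
    discrepancy z N ≤ ENNReal.ofReal (2 ^ d * E / N) := by
  classical
  have hN0 : (0:ℝ) < N := by exact_mod_cast hN
  refine iSup₂_le ?_
  rintro B ⟨I, hI, rfl⟩
  apply ENNReal.ofReal_le_ofReal
  have h1 := H739SQ.all_boxes (fun n j => (hz n j).2) h I hI
  have h2 : H739SQ.cU z N I = (countIn z N (Set.univ.pi I) : ℝ) := by
    unfold H739SQ.cU countIn
    rw [Finset.card_filter]
    push_cast
    refine Finset.sum_congr rfl fun k _ => ?_
    simp only [Set.mem_univ_pi]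
  have h3 : (volume (Set.univ.pi I)).toReal = ∏ j, (volume (I j)).toReal := by
    rw [volume_pi_pi, ENNReal.toReal_prod]
  rw [h2] at h1
  rw [h3]
  have e : (countIn z N (Set.univ.pi I) : ℝ) / N - ∏ j, (volume (I j)).toReal =
      ((countIn z N (Set.univ.pi I) : ℝ) - N * ∏ j, (volume (I j)).toReal) / N := by
    field_simp
  rw [e, abs_div, abs_of_pos hN0]
  exact div_le_div_of_nonneg_right h1 hN0.le

lemma one_lt_log {N : ℕ} (hN : 3 ≤ N) : 1 < Real.log N :=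
  Pool.Agent.KS6_54.SQ.one_lt_log3.trans_le (Real.log_le_log (by norm_num) (by exact_mod_cast hN))

/-- a power saving beats every multiple of a slightly larger power -/
lemma eventually_lt {D : ℕ → ENNReal} {C a b : ℝ} (hC : 0 < C) (hab : a < b)
    (h : ∀ N : ℕ, 3 ≤ N → D N ≤ ENNReal.ofReal (C * (Real.log N) ^ a *
      (Real.log (Real.log N)) ^ 2 / N)) :
    ∀ c : ℝ, 0 < c → ∀ᶠ N : ℕ in atTop, D N < ENNReal.ofReal (c * (Real.log N) ^ b / N) := by
  intro c hc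
  have t1 : Tendsto (fun N : ℕ => Real.log (N:ℝ)) atTop atTop :=
    Real.tendsto_log_atTop.comp tendsto_natCast_atTop_atTop
  have h0 : Tendsto (fun x : ℝ => Real.log x ^ 2 / x ^ (b - a)) atTop (nhds 0) := by
    have h1 : (fun x : ℝ => Real.log x ^ (2:ℝ)) =o[atTop] fun x => x ^ (b - a) :=
      isLittleO_log_rpow_rpow_atTop 2 (by linarith)
    have h2 := h1.tendsto_div_nhds_zero
    refine h2.congr fun x => ?_
    norm_num
  have h1 := (h0.comp t1).eventually (gt_mem_nhds (show (0:ℝ) < c / C by positivity))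
  filter_upwards [h1, eventually_ge_atTop 3] with N h2 h3
  refine (h N h3).trans_lt ?_
  have hN0 : (0:ℝ) < N := by exact_mod_cast (by omega : 0 < N)
  have hs1 := one_lt_log h3
  have hs0 : 0 < Real.log N := by linarith
  rw [ENNReal.ofReal_lt_ofReal_iff (by positivity)]
  apply div_lt_div_of_pos_right _ hN0
  have h4 : 0 < Real.log N ^ a := Real.rpow_pos_of_pos hs0 _
  have h6 : 0 < Real.log N ^ (b - a) := Real.rpow_pos_of_pos hs0 _
  have h5 : Real.log N ^ b = Real.log N ^ (b - a) * Real.log N ^ a := by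
    rw [← Real.rpow_add hs0]; congr 1; ring
  have h7 : Real.log (Real.log N) ^ 2 / Real.log N ^ (b - a) < c / C := h2
  rw [div_lt_div_iff₀ h6 hC] at h7
  rw [h5]
  calc C * Real.log N ^ a * Real.log (Real.log N) ^ 2
      = (Real.log (Real.log N) ^ 2 * C) * Real.log N ^ a := by ring
    _ < (c * Real.log N ^ (b - a)) * Real.log N ^ a := mul_lt_mul_of_pos_right h7 h4
    _ = _ := by ring

theorem towerS : Pool.Agent.KS6_54.SQ.TowerS Pool.Agent.R843.SX.SuitG 5 1 := by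
  obtain ⟨K, hK⟩ := Pool.Agent.KS6_54.SQ.tower
  refine ⟨K, fun q _ hq => ?_⟩
  obtain ⟨c, hc⟩ := hK q hq
  refine ⟨c, fun n hn => ⟨(hc n hn).1, ?_⟩⟩
  have h := (hc n hn).2
  have e : Pool.Agent.KS6_54.SQ.Zb q (n + 1) =
      (Pool.Agent.H935R2.PS.La q : ℝ) ^ ((5 + 1) * (n + 2) - 1) *
        (Pool.Agent.H935R2.PS.uu q : ℝ) ^ 2 := by
    unfold Pool.Agent.KS6_54.SQ.Zb
    rw [← pow_mul, ← pow_add]
    congr 2
    omega
  rw [e] at h
  exact h

/-- **One sequence which beats `(log N)^d / N` in all dimensions `d ≥ 2` at once, with a power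
saving.** There is a sequence `z` in `[0,1)^ℕ` such that for every `d ≥ 2` the projection of `z` to the
first `d` coordinates has extreme discrepancy `D_N ≤ C_d (log N)^(d - 1/6) (log log N)^2 / N` for all
`N ≥ 3`; so for every `κ < 1/6` and every `c > 0` this projection has
`D_N < c (log N)^(d - κ) / N` for all large `N`. Consequently, for no `d ≥ 2`, no `κ < 1/6` and no
`c > 0` do all sequences in `[0,1)^d` satisfy `D_N ≥ c (log N)^(d - κ) / N` for infinitely many `N`;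
in particular (last statement) the answer to the question is negative in every dimension `d ≥ 2`. -/
theorem result :
    (∃ z : ℕ → ℕ → ℝ, (∀ n i, z n i ∈ Set.Ico (0:ℝ) 1) ∧ ∀ d : ℕ, 2 ≤ d →
      (∃ C : ℝ, 0 < C ∧ ∀ N : ℕ, 3 ≤ N → discrepancy (proj z d) N ≤
        ENNReal.ofReal (C * (Real.log N) ^ ((d:ℝ) - 1 / 6) * (Real.log (Real.log N)) ^ 2 / N)) ∧
      (∀ κ : ℝ, κ < 1 / 6 → ∀ c : ℝ, 0 < c → ∀ᶠ N : ℕ in atTop,
        discrepancy (proj z d) N < ENNReal.ofReal (c * (Real.log N) ^ ((d:ℝ) - κ) / N)) ∧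
      (∀ c : ℝ, 0 < c → ∀ᶠ N : ℕ in atTop,
        discrepancy (proj z d) N < ENNReal.ofReal (c * (Real.log N) ^ d / N))) ∧
    (∀ d : ℕ, 2 ≤ d → ∀ κ : ℝ, κ < 1 / 6 →
      ¬ ∃ c : ℝ, 0 < c ∧ ∀ z : ℕ → Fin d → ℝ, (∀ n i, z n i ∈ Set.Ico (0:ℝ) 1) →
        ∃ᶠ N : ℕ in atTop, ENNReal.ofReal (c * (Real.log N) ^ ((d:ℝ) - κ) / N) ≤
          discrepancy z N) ∧
    (∀ d : ℕ, 2 ≤ d →
      ¬ ∃ c : ℝ, 0 < c ∧ ∀ z : ℕ → Fin d → ℝ, (∀ n i, z n i ∈ Set.Ico (0:ℝ) 1) →
        ∃ᶠ N : ℕ in atTop, ENNReal.ofReal (c * (Real.log N) ^ d / N) ≤ discrepancy z N) := by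
  obtain ⟨z, hz, h⟩ := Pool.Agent.KS6_54.SQ.seq_of_tower _ Pool.Agent.R843.SX.suitableG 5 1
    (by norm_num) towerS
  have hz' : ∀ n i, z n i ∈ Set.Ico (0:ℝ) 1 := fun k i => ⟨(hz k i).1, (hz k i).2⟩
  have hb : ∀ d : ℕ, 2 ≤ d → ∃ C : ℝ, 0 < C ∧ ∀ N : ℕ, 3 ≤ N → discrepancy (proj z d) N ≤
      ENNReal.ofReal (C * (Real.log N) ^ ((d:ℝ) - 1 / 6) * (Real.log (Real.log N)) ^ 2 / N) := by
    intro d hd
    obtain ⟨C, hC, hN⟩ := h d hd
    refine ⟨2 ^ d * C, by positivity, fun N hN3 => ?_⟩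
    have h1 := hN N hN3
    have e : (d:ℝ) - ((1:ℕ):ℝ) / (((5:ℕ):ℝ) + 1) = (d:ℝ) - 1 / 6 := by norm_num
    rw [e] at h1
    refine (disc_le (by omega) (fun n j => hz n j) h1).trans (le_of_eq ?_)
    congr 1
    ring
  have ev1 : ∀ d : ℕ, 2 ≤ d → ∀ κ : ℝ, κ < 1 / 6 → ∀ c : ℝ, 0 < c → ∀ᶠ N : ℕ in atTop,
      discrepancy (proj z d) N < ENNReal.ofReal (c * (Real.log N) ^ ((d:ℝ) - κ) / N) := by
    intro d hd κ hκ
    obtain ⟨C, hC, hN⟩ := hb d hd
    exact eventually_lt hC (by linarith) hN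
  have ev2 : ∀ d : ℕ, 2 ≤ d → ∀ c : ℝ, 0 < c → ∀ᶠ N : ℕ in atTop,
      discrepancy (proj z d) N < ENNReal.ofReal (c * (Real.log N) ^ d / N) := by
    intro d hd c hc
    filter_upwards [ev1 d hd 0 (by norm_num) c hc] with N hN
    rwa [sub_zero, Real.rpow_natCast] at hN
  refine ⟨⟨z, hz', fun d hd => ⟨hb d hd, ev1 d hd, ev2 d hd⟩⟩, ?_, ?_⟩
  · rintro d hd κ hκ ⟨c, hc, h'⟩
    obtain ⟨N, h5, h6⟩ := ((h' (proj z d) (fun n i => hz' n i)).and_eventually
      (ev1 d hd κ hκ c hc)).exists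
    exact absurd h6 (not_lt.2 h5)
  · rintro d hd ⟨c, hc, h'⟩
    obtain ⟨N, h5, h6⟩ := ((h' (proj z d) (fun n i => hz' n i)).and_eventually
      (ev2 d hd c hc)).exists
    exact absurd h6 (not_lt.2 h5)

end Pool.Agent.Results.MP_f4022e_nt.SimultaneousAllDim
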